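import Mathlib
import Pool.Agent.H75.Tp.Scale
import Pool.Agent.H75.Tp.Cot

set_option autoImplicit false

/-!
# Spaces of cotype `q > 2` without proportional subspaces of bounded type 2

The question asks for a function `f` such that every finite-dimensional normed space `X` has, for
every `q ≥ 2`, a subspace `E` with `dim E ≥ n / 2` and `T₂(E) ≤ f (q, C_q(X))`. There is none, for
every single exponent `q > 2` and for every proportion `δ > 0` in place of `1 / 2`; and in every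
dimension `n ≥ 16` there is one norm with cotype `q` constant at most `√3` such that every subspace
`E` satisfies `dim E ≤ c_q T₂(E) n √(log log n / log n)`. The spaces are `ℓ₁ᵐ(ℓ_rᵐ)` with
`r = min q 4`.
-/

namespace Pool.Agent.Results.MP_138624_an.AllProportions

open Finset Pool.Agent.Helper890.Tp Pool.Agent.H75.Tp
open scoped BigOperators

/-! ### The notions of the question -/

/-- `N` is a norm on `ℝⁿ`. -/
structure IsNorm {n : ℕ} (N : (Fin n → ℝ) → ℝ) : Prop where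
  nonneg : ∀ x, 0 ≤ N x
  eq_zero : ∀ x, N x = 0 → x = 0
  smul : ∀ (c : ℝ) (x : Fin n → ℝ), N (c • x) = |c| * N x
  add_le : ∀ x y, N (x + y) ≤ N x + N y

/-- `(𝔼 ‖∑ᵢ εᵢ xᵢ‖²)^{1/2}`, the average running over all `2ᵏ` choices of signs `εᵢ = ±1`. -/
noncomputable def rad {n k : ℕ} (N : (Fin n → ℝ) → ℝ) (x : Fin k → Fin n → ℝ) : ℝ :=
  Real.sqrt ((∑ ε : Fin k → ℤˣ, N (∑ i, ((ε i : ℤ) : ℝ) • x i) ^ 2) / 2 ^ k)

/-- The type 2 inequality with constant `T` on the subspace `E` of `(ℝⁿ, N)`.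
The type 2 constant `T₂(E)` is the least such `T`, so this says `T₂(E) ≤ T`. -/
def TypeTwo {n : ℕ} (N : (Fin n → ℝ) → ℝ) (E : Submodule ℝ (Fin n → ℝ)) (T : ℝ) : Prop :=
  ∀ (k : ℕ) (x : Fin k → Fin n → ℝ), (∀ i, x i ∈ E) →
    rad N x ≤ T * Real.sqrt (∑ i, N (x i) ^ 2)

/-- The cotype `q` inequality with constant `C` in `(ℝⁿ, N)`. -/
def Cotype {n : ℕ} (N : (Fin n → ℝ) → ℝ) (q C : ℝ) : Prop :=
  ∀ (k : ℕ) (x : Fin k → Fin n → ℝ), (∑ i, N (x i) ^ q) ^ (1 / q) ≤ C * rad N x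

/-- `c` is the cotype `q` constant `C_q(ℝⁿ, N)`: the least `C` for which the cotype `q`
inequality holds. -/
def IsCotypeConst {n : ℕ} (N : (Fin n → ℝ) → ℝ) (q c : ℝ) : Prop :=
  IsLeast {C : ℝ | Cotype N q C} c

lemma rad_eq {n k : ℕ} (N : (Fin n → ℝ) → ℝ) (x : Fin k → Fin n → ℝ) :
    rad N x = Real.sqrt (𝔼 e : Fin k → ℤˣ, N (∑ i, sg (e i) • x i) ^ 2) := by
  unfold rad
  rw [Fintype.expect_eq_sum_div_card]
  congr 2
  simp

lemma cotype_of {n : ℕ} (N : (Fin n → ℝ) → ℝ) (hN : ∀ x, 0 ≤ N x) (q C : ℝ) (hC : 0 ≤ C)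
    (h : ∀ (k : ℕ) (x : Fin k → Fin n → ℝ), Lr q (fun i => N (x i)) ^ 2 ≤
      C ^ 2 * 𝔼 e : Fin k → ℤˣ, N (∑ i, sg (e i) • x i) ^ 2) : Cotype N q C := by
  intro k x
  rw [rad_eq]
  have e1 : (∑ i, N (x i) ^ q) ^ (1 / q) = Lr q (fun i => N (x i)) := by
    unfold Lr
    simp only [abs_of_nonneg (hN _)]
  have hB0 : 0 ≤ 𝔼 e : Fin k → ℤˣ, N (∑ i, sg (e i) • x i) ^ 2 :=
    Finset.expect_nonneg (fun e _ => sq_nonneg _)
  have h2 : Lr q (fun i => N (x i)) ^ 2 ≤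
      (C * Real.sqrt (𝔼 e : Fin k → ℤˣ, N (∑ i, sg (e i) • x i) ^ 2)) ^ 2 := by
    rw [mul_pow, Real.sq_sqrt hB0]
    exact h k x
  rw [e1]
  exact (abs_le_of_sq_le_sq' h2 (mul_nonneg hC (Real.sqrt_nonneg _))).2

/-! ### The examples in every dimension -/

/-- side length of the square grid in which `Fin n` is embedded -/
def side (n : ℕ) : ℕ := Nat.sqrt n + 1

lemma le_side (n : ℕ) : n ≤ side n * side n := by
  unfold side
  exact (Nat.lt_succ_sqrt n).le

lemma side_sq_le {n : ℕ} (hn : 1 ≤ n) : ((side n : ℕ) : ℝ) ^ 2 ≤ 4 * n := by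
  have h1 : Nat.sqrt n * Nat.sqrt n ≤ n := Nat.sqrt_le n
  have h2 : 1 ≤ Nat.sqrt n := Nat.le_sqrt.mpr (by omega)
  have h3 : side n ^ 2 ≤ 4 * n := by
    unfold side
    nlinarith
  exact_mod_cast h3

/-- an injection of `Fin n` in the grid -/
def emb (n : ℕ) (i : Fin n) : Fin (side n) × Fin (side n) :=
  finProdFinEquiv.symm (Fin.castLE (le_side n) i)

lemma emb_inj (n : ℕ) : Function.Injective (emb n) :=
  finProdFinEquiv.symm.injective.comp (Fin.castLE_injective (le_side n))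

/-- extension by zero -/
noncomputable def ext (n : ℕ) : (Fin n → ℝ) →ₗ[ℝ] (Fin (side n) × Fin (side n) → ℝ) where
  toFun x := Function.extend (emb n) x 0
  map_add' x y := by
    funext a
    by_cases ha : ∃ i, emb n i = a
    · obtain ⟨i, rfl⟩ := ha
      simp [(emb_inj n).extend_apply]
    · simp [Function.extend_apply' _ _ _ ha]
  map_smul' c x := by
    funext a
    by_cases ha : ∃ i, emb n i = a
    · obtain ⟨i, rfl⟩ := ha
      simp [(emb_inj n).extend_apply]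
    · simp [Function.extend_apply' _ _ _ ha]

lemma ext_emb (n : ℕ) (x : Fin n → ℝ) (i : Fin n) : ext n x (emb n i) = x i :=
  (emb_inj n).extend_apply x 0 i

lemma ext_inj (n : ℕ) : Function.Injective (ext n) := by
  intro x y h
  funext i
  rw [← ext_emb n x i, ← ext_emb n y i, h]

/-- the norm of `ℓ₁ᵐ(ℓ_rᵐ)`, restricted to `ℝⁿ` -/
noncomputable def NN (r : ℝ) (n : ℕ) (x : Fin n → ℝ) : ℝ := nr r (ext n x)

lemma isNorm_NN {r : ℝ} (hr : 2 < r) (n : ℕ) : IsNorm (NN r n) where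
  nonneg x := nr_nonneg _ _
  eq_zero x hx := by
    have h := nr_eq_zero (by linarith) hx
    exact ext_inj n (by rw [h, map_zero])
  smul c x := by
    unfold NN
    rw [map_smul, nr_smul (by linarith)]
  add_le x y := by
    unfold NN
    rw [map_add]
    exact nr_add (by linarith) _ _

lemma NN_sum (r : ℝ) (n k : ℕ) (e : Fin k → ℤˣ) (x : Fin k → Fin n → ℝ) :
    NN r n (∑ i, sg (e i) • x i) = nr r (∑ i, sg (e i) • ext n (x i)) := by
  unfold NN
  rw [map_sum]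
  simp_rw [map_smul]

lemma cotype_NN {r q : ℝ} (hr : 2 < r) (hq : r ≤ q) (n : ℕ) : Cotype (NN r n) q (Real.sqrt 3) := by
  refine cotype_of _ (isNorm_NN hr n).nonneg _ _ (Real.sqrt_nonneg _) (fun k x => ?_)
  rw [Real.sq_sqrt (by norm_num)]
  simp_rw [NN_sum]
  exact cot_nr hr.le hq k (fun i => ext n (x i))

lemma T2r_NN {r : ℝ} (n : ℕ) (E : Submodule ℝ (Fin n → ℝ)) (T : ℝ)
    (h : TypeTwo (NN r n) E T) :
    T2r r ((E.map (ext n) : Submodule ℝ (Fin (side n) × Fin (side n) → ℝ)) :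
      Set (Fin (side n) × Fin (side n) → ℝ)) (T ^ 2) := by
  intro K y hy
  choose x hx using fun k => Submodule.mem_map.mp (hy k)
  have h1 := h K x (fun k => (hx k).1)
  rw [rad_eq] at h1
  simp_rw [NN_sum] at h1
  have hy' : ∀ k, ext n (x k) = y k := fun k => (hx k).2
  have hn : ∀ k, NN r n (x k) = nr r (y k) := fun k => by unfold NN; rw [hy']
  simp_rw [hy', hn] at h1
  set Q := 𝔼 e : Fin K → ℤˣ, nr r (∑ i, sg (e i) • y i) ^ 2 with hQ
  have hQ0 : 0 ≤ Q := Finset.expect_nonneg (fun e _ => sq_nonneg _)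
  have hS0 : 0 ≤ ∑ i, nr r (y i) ^ 2 := Finset.sum_nonneg (fun _ _ => sq_nonneg _)
  have h4 := pow_le_pow_left₀ (Real.sqrt_nonneg _) h1 2
  rwa [Real.sq_sqrt hQ0, mul_pow, Real.sq_sqrt hS0] at h4

theorem dimension_bound {r : ℝ} (hr : 2 < r) (hr4 : r ≤ 4) (a : ℕ) (ha : r ≤ a * (r - 2))
    (n t : ℕ) (ht : 1 ≤ t)
    (hn : t ^ (4 * a * t) ≤ n) (E : Submodule ℝ (Fin n → ℝ)) (T : ℝ) (hT0 : 0 ≤ T)
    (hT : TypeTwo (NN r n) E T) :
    (Module.finrank ℝ E : ℝ) ≤ 20 * T * n / Real.sqrt t := by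
  have hn1 : 1 ≤ n := le_trans (Nat.one_le_pow _ _ ht) hn
  have hm : (t ^ a) ^ (2 * t) ≤ side n := by
    have h1 : (t ^ a) ^ (2 * t) ≤ Nat.sqrt n := by
      rw [Nat.le_sqrt]
      refine le_trans (le_of_eq ?_) hn
      rw [← pow_add, ← pow_mul]
      congr 1
      ring
    unfold side
    omega
  have h := final_estimate hr hr4 a ha t ht (side n) hm (E.map (ext n)) T hT0 (T2r_NN n E T hT)
  have hfr : Module.finrank ℝ (E.map (ext n)) = Module.finrank ℝ E :=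
    (LinearEquiv.finrank_eq (Submodule.equivMapOfInjective (ext n) (ext_inj n) E)).symm
  rw [hfr] at h
  refine h.trans ?_
  have h2 := side_sq_le hn1
  have h4 : 5 * T * ((side n : ℕ) : ℝ) ^ 2 ≤ 20 * T * n := by
    calc 5 * T * ((side n : ℕ) : ℝ) ^ 2 ≤ 5 * T * (4 * n) :=
          mul_le_mul_of_nonneg_left h2 (by positivity)
      _ = _ := by ring
  exact div_le_div_of_nonneg_right h4 (Real.sqrt_nonneg _)

/-- the choice of `t` for a given `n` -/
lemma exists_scale (a n : ℕ) (ha : 1 ≤ a) (hn : 16 ≤ n) : ∃ t : ℕ, 1 ≤ t ∧ t ^ (4 * a * t) ≤ n ∧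
    1 / Real.sqrt t ≤ 3 * Real.sqrt a * Real.sqrt (Real.log (Real.log n) / Real.log n) := by
  have hnR : (16 : ℝ) ≤ n := by exact_mod_cast hn
  have hn0 : (0 : ℝ) < n := by linarith
  set L := Real.log n with hL
  have hL1 : Real.exp 1 ≤ L := by
    have h1 : Real.log 16 ≤ L := Real.log_le_log (by norm_num) hnR
    have h2 : Real.log 16 = 4 * Real.log 2 := by
      rw [show (16 : ℝ) = 2 ^ (4 : ℕ) by norm_num, Real.log_pow]
      norm_num
    have h3 := Real.log_two_gt_d9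
    have h4 := Real.exp_one_lt_d9
    linarith
  have hL0 : 0 < L := lt_of_lt_of_le (Real.exp_pos 1) hL1
  set l := Real.log L with hl
  have hl1 : 1 ≤ l := (Real.le_log_iff_exp_le hL0).mpr hL1
  have haR : (1 : ℝ) ≤ a := by exact_mod_cast ha
  have h4al : 1 ≤ 4 * a * l := by nlinarith
  have h4al0 : 0 < 4 * a * l := by linarith
  set x := L / (4 * a * l) with hx
  have hx0 : 0 < x := div_pos hL0 h4al0
  have hxL : x ≤ L := div_le_self hL0.le h4al
  have key : ∀ t : ℕ, 1 ≤ t → x ≤ 2 * t →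
      1 / Real.sqrt t ≤ 3 * Real.sqrt a * Real.sqrt (l / L) := by
    intro t ht hxt
    have htR : (1 : ℝ) ≤ t := by exact_mod_cast ht
    have h1 : (1 : ℝ) / t ≤ 9 * (a * (l / L)) := by
      rw [div_le_iff₀ (by linarith)]
      have h2 : L ≤ 8 * a * l * t := by
        have : L = x * (4 * a * l) := by rw [hx]; field_simp
        rw [this]
        calc x * (4 * a * l) ≤ 2 * t * (4 * a * l) := mul_le_mul_of_nonneg_right hxt h4al0.le
          _ = _ := by ring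
      have h3 : 1 ≤ 8 * (a * (l / L)) * t := by
        have : 8 * (a * (l / L)) * t = (8 * a * l * t) / L := by ring
        rw [this, le_div_iff₀ hL0]
        linarith
      have h4 : 0 ≤ (a * (l / L)) * t := by positivity
      linarith
    have h5 := Real.sqrt_le_sqrt h1
    rw [Real.sqrt_div (by norm_num), Real.sqrt_one] at h5
    refine h5.trans (le_of_eq ?_)
    rw [Real.sqrt_mul (by norm_num), Real.sqrt_mul (by positivity)]
    have : Real.sqrt 9 = 3 := by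
      rw [show (9 : ℝ) = 3 ^ 2 by norm_num, Real.sqrt_sq (by norm_num)]
    rw [this]
    ring
  rcases Nat.eq_zero_or_pos ⌊x⌋₊ with h0 | h0
  · refine ⟨1, le_rfl, by simp; omega, ?_⟩
    have hx1 : x < 1 := Nat.floor_eq_zero.mp h0
    exact key 1 le_rfl (by push_cast; linarith)
  · refine ⟨⌊x⌋₊, h0, ?_, ?_⟩
    · set t := ⌊x⌋₊ with ht
      have htx : (t : ℝ) ≤ x := Nat.floor_le hx0.le
      have htR : (1 : ℝ) ≤ t := by exact_mod_cast h0
      have hlt : Real.log t ≤ l := Real.log_le_log (by linarith) (htx.trans hxL)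
      have hlt0 : 0 ≤ Real.log t := Real.log_nonneg htR
      have h1 : ((t ^ (4 * a * t) : ℕ) : ℝ) ≤ n := by
        rw [← Real.log_le_log_iff (by positivity) hn0]
        push_cast
        rw [Real.log_pow]
        push_cast
        calc 4 * (a : ℝ) * t * Real.log t ≤ 4 * a * x * l := by
              apply mul_le_mul _ hlt hlt0 (by positivity)
              exact mul_le_mul_of_nonneg_left htx (by positivity)
          _ = L := by rw [hx]; field_simp
      exact_mod_cast h1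
    · apply key _ h0
      have h1 := Nat.lt_floor_add_one x
      have h2 : (1 : ℝ) ≤ ⌊x⌋₊ := by exact_mod_cast h0
      linarith

lemma exists_min {q : ℝ} (hq : 2 < q) : 2 < min q 4 ∧ min q 4 ≤ 4 ∧ min q 4 ≤ q ∧
    1 ≤ ⌈q / (q - 2)⌉₊ ∧ min q 4 ≤ (⌈q / (q - 2)⌉₊ : ℕ) * (min q 4 - 2) := by
  have hq2 : 0 < q - 2 := by linarith
  have h1 : 1 < q / (q - 2) := by rw [lt_div_iff₀ hq2]; linarith
  have h2 : q / (q - 2) ≤ (⌈q / (q - 2)⌉₊ : ℕ) := Nat.le_ceil _
  have h3 : 1 < ⌈q / (q - 2)⌉₊ := by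
    have : (1 : ℝ) < (⌈q / (q - 2)⌉₊ : ℕ) := lt_of_lt_of_le h1 h2
    exact_mod_cast this
  refine ⟨lt_min hq (by norm_num), min_le_right _ _, min_le_left _ _, h3.le, ?_⟩
  rcases le_total q 4 with h | h
  · rw [min_eq_left h]
    rwa [div_le_iff₀ hq2] at h2
  · rw [min_eq_right h]
    have : (2 : ℝ) ≤ (⌈q / (q - 2)⌉₊ : ℕ) := by exact_mod_cast h3
    linarith

theorem all_dimensions (q : ℝ) (hq : 2 < q) (n : ℕ) (hn : 16 ≤ n) :
    ∃ N : (Fin n → ℝ) → ℝ, IsNorm N ∧ (∀ p : ℝ, q ≤ p → Cotype N p (Real.sqrt 3)) ∧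
      ∀ (E : Submodule ℝ (Fin n → ℝ)) (T : ℝ), 0 ≤ T → TypeTwo N E T →
        (Module.finrank ℝ E : ℝ) ≤ 60 * Real.sqrt ⌈q / (q - 2)⌉₊ * T * n *
          Real.sqrt (Real.log (Real.log n) / Real.log n) := by
  obtain ⟨hr, hr4, hrq, ha1, ha⟩ := exists_min hq
  refine ⟨NN (min q 4) n, isNorm_NN hr n, fun p hp => cotype_NN hr (hrq.trans hp) n, ?_⟩
  intro E T hT0 hT
  obtain ⟨t, ht, htn, hs⟩ := exists_scale _ n ha1 hn
  refine (dimension_bound hr hr4 _ ha n t ht htn E T hT0 hT).trans ?_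
  calc 20 * T * n / Real.sqrt t = 20 * T * n * (1 / Real.sqrt t) := by ring
    _ ≤ 20 * T * n * (3 * Real.sqrt ⌈q / (q - 2)⌉₊ *
        Real.sqrt (Real.log (Real.log n) / Real.log n)) :=
        mul_le_mul_of_nonneg_left hs (by positivity)
    _ = _ := by ring

/-! ### Exact cotype constants: the `ℓ₂`-sum of `ℓ₁ᵐ(ℓ_rᵐ)` and `ℓ_∞^M` -/

/-- index set -/
abbrev Idx (m M : ℕ) := (Fin m × Fin m) ⊕ Fin M

/-- numbering of the coordinates -/
def eqv (m M : ℕ) : Fin (m * m + M) ≃ Idx m M :=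
  finSumFinEquiv.symm.trans (Equiv.sumCongr finProdFinEquiv.symm (Equiv.refl _))

def fst {m M : ℕ} (x : Fin (m * m + M) → ℝ) : Fin m × Fin m → ℝ :=
  fun a => x ((eqv m M).symm (.inl a))
def snd {m M : ℕ} (x : Fin (m * m + M) → ℝ) : Fin M → ℝ := fun j => x ((eqv m M).symm (.inr j))

/-- the norm of the `ℓ₂`-sum of `ℓ₁ᵐ(ℓ_rᵐ)` and `ℓ_∞^M` -/
noncomputable def NX (r : ℝ) (m M : ℕ) (x : Fin (m * m + M) → ℝ) : ℝ :=
  Real.sqrt (nr r (fst x) ^ 2 + ‖snd x‖ ^ 2)

lemma NX_sq (r : ℝ) (m M : ℕ) (x : Fin (m * m + M) → ℝ) :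
    NX r m M x ^ 2 = nr r (fst x) ^ 2 + ‖snd x‖ ^ 2 :=
  Real.sq_sqrt (by positivity)

lemma mink (a b c d : ℝ) (ha : 0 ≤ a) (hb : 0 ≤ b) (hc : 0 ≤ c) (hd : 0 ≤ d) :
    Real.sqrt ((a + c) ^ 2 + (b + d) ^ 2) ≤ Real.sqrt (a ^ 2 + b ^ 2) + Real.sqrt (c ^ 2 + d ^ 2) := by
  apply Real.sqrt_le_iff.mpr
  refine ⟨by positivity, ?_⟩
  have h1 : (Real.sqrt (a ^ 2 + b ^ 2) + Real.sqrt (c ^ 2 + d ^ 2)) ^ 2
      = (a ^ 2 + b ^ 2) + (c ^ 2 + d ^ 2)
        + 2 * (Real.sqrt (a ^ 2 + b ^ 2) * Real.sqrt (c ^ 2 + d ^ 2)) := by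
    rw [add_sq, Real.sq_sqrt (by positivity), Real.sq_sqrt (by positivity)]
    ring
  have h2 : a * c + b * d ≤ Real.sqrt (a ^ 2 + b ^ 2) * Real.sqrt (c ^ 2 + d ^ 2) := by
    rw [← Real.sqrt_mul (by positivity)]
    apply Real.le_sqrt_of_sq_le
    nlinarith [sq_nonneg (a * d - b * c)]
  rw [h1]
  nlinarith

lemma isNorm_NX {r : ℝ} (hr : 2 < r) (m M : ℕ) : IsNorm (NX r m M) where
  nonneg := fun x => Real.sqrt_nonneg _
  eq_zero := by
    intro x hx
    have h := NX_sq r m M x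
    rw [hx] at h
    have h1 : nr r (fst x) = 0 := by
      nlinarith [sq_nonneg (nr r (fst x)), sq_nonneg ‖snd x‖, nr_nonneg r (fst x)]
    have h2 : ‖snd x‖ = 0 := by
      nlinarith [sq_nonneg (nr r (fst x)), sq_nonneg ‖snd x‖, norm_nonneg (snd x)]
    have h3 := nr_eq_zero (by linarith) h1
    have h4 := norm_eq_zero.mp h2
    funext l
    rcases hl : eqv m M l with a | j
    · have : l = (eqv m M).symm (.inl a) := by rw [← hl, Equiv.symm_apply_apply]
      rw [this]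
      exact congrFun h3 a
    · have : l = (eqv m M).symm (.inr j) := by rw [← hl, Equiv.symm_apply_apply]
      rw [this]
      exact congrFun h4 j
  smul := by
    intro c x
    unfold NX
    have h1 : fst (c • x) = c • fst x := rfl
    have h2 : snd (c • x) = c • snd x := rfl
    rw [h1, h2, nr_smul (by linarith), norm_smul, Real.norm_eq_abs, mul_pow, mul_pow, ← mul_add,
      Real.sqrt_mul (by positivity), Real.sqrt_sq (abs_nonneg _)]
  add_le := by
    intro x y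
    unfold NX
    have h1 : fst (x + y) = fst x + fst y := rfl
    have h2 : snd (x + y) = snd x + snd y := rfl
    rw [h1, h2]
    refine le_trans (Real.sqrt_le_sqrt ?_)
      (mink _ _ _ _ (nr_nonneg _ _) (norm_nonneg _) (nr_nonneg _ _) (norm_nonneg _))
    have h3 := nr_add (by linarith : 1 ≤ r) (fst x) (fst y)
    have h4 := norm_add_le (snd x) (snd y)
    have h5 : nr r (fst x + fst y) ^ 2 ≤ (nr r (fst x) + nr r (fst y)) ^ 2 :=
      pow_le_pow_left₀ (nr_nonneg _ _) h3 2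
    have h6 : ‖snd x + snd y‖ ^ 2 ≤ (‖snd x‖ + ‖snd y‖) ^ 2 :=
      pow_le_pow_left₀ (norm_nonneg _) h4 2
    linarith

lemma fst_sum {m M k : ℕ} (e : Fin k → ℤˣ) (x : Fin k → Fin (m * m + M) → ℝ) :
    fst (∑ i, sg (e i) • x i) = ∑ i, sg (e i) • fst (x i) := by
  funext a
  simp [fst, Finset.sum_apply]

lemma snd_sum {m M k : ℕ} (e : Fin k → ℤˣ) (x : Fin k → Fin (m * m + M) → ℝ) :
    snd (∑ i, sg (e i) • x i) = ∑ i, sg (e i) • snd (x i) := by
  funext a
  simp [snd, Finset.sum_apply]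

lemma cotype_NX {r q : ℝ} (hr : 2 < r) (hq : r ≤ q) (m M : ℕ)
    (hM : (3 : ℝ) ≤ ((M : ℝ) ^ (1 / q)) ^ 2) : Cotype (NX r m M) q ((M : ℝ) ^ (1 / q)) := by
  have hq0 : 0 < q := by linarith
  refine cotype_of _ (isNorm_NX hr m M).nonneg _ _ (by positivity) (fun k x => ?_)
  set A := 𝔼 e : Fin k → ℤˣ, nr r (∑ i, sg (e i) • fst (x i)) ^ 2 with hA
  set B := 𝔼 e : Fin k → ℤˣ, ‖∑ i, sg (e i) • snd (x i)‖ ^ 2 with hB
  have hQ : 𝔼 e : Fin k → ℤˣ, NX r m M (∑ i, sg (e i) • x i) ^ 2 = A + B := by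
    rw [hA, hB, ← Finset.expect_add_distrib]
    refine Finset.expect_congr rfl (fun e _ => ?_)
    rw [NX_sq, fst_sum, snd_sum]
  have hA0 : 0 ≤ A := Finset.expect_nonneg (fun e _ => sq_nonneg _)
  have hB0 : 0 ≤ B := Finset.expect_nonneg (fun e _ => sq_nonneg _)
  rw [hQ, ← Lr_half hq0]
  simp_rw [NX_sq]
  refine (Lr_add (by linarith) _ _).trans ?_
  rw [Lr_half hq0, Lr_half hq0]
  have h1 := cot_nr hr.le hq k (fun i => fst (x i))
  have h2 := cot_supR (by linarith : 2 ≤ q) M k (fun i => snd (x i))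
  have h3 : 3 * A ≤ ((M : ℝ) ^ (1 / q)) ^ 2 * A := mul_le_mul_of_nonneg_right hM hA0
  rw [mul_add]
  linarith

/-- the unit vectors of the summand `ℓ_∞^M` -/
def tst (m M : ℕ) (i : Fin M) : Fin (m * m + M) → ℝ :=
  fun l => if eqv m M l = .inr i then 1 else 0

lemma fst_tst (m M : ℕ) (i : Fin M) : fst (tst m M i) = 0 := by
  funext a
  simp [fst, tst]

lemma snd_tst (m M : ℕ) (i : Fin M) : snd (tst m M i) = Pi.single i 1 := by
  funext j
  simp [snd, tst, Pi.single_apply]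

lemma nr_zero' {r : ℝ} (hr : 0 < r) {m : ℕ} : nr r (0 : Fin m × Fin m → ℝ) = 0 := by
  have := nr_smul hr (0 : ℝ) (0 : Fin m × Fin m → ℝ)
  simpa using this

lemma NX_tst {r : ℝ} (hr : 0 < r) (m M : ℕ) (i : Fin M) : NX r m M (tst m M i) = 1 := by
  unfold NX
  rw [fst_tst, snd_tst, nr_zero' hr]
  have : ‖(Pi.single i (1 : ℝ) : Fin M → ℝ)‖ = 1 := by
    rw [Pi.norm_single]; simp
  rw [this]
  simp

lemma NX_tst_sum {r : ℝ} (hr : 0 < r) (m M : ℕ) (hM : 1 ≤ M) (e : Fin M → ℤˣ) :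
    NX r m M (∑ i, sg (e i) • tst m M i) = 1 := by
  unfold NX
  rw [fst_sum, snd_sum]
  simp only [fst_tst, snd_tst, smul_zero, Finset.sum_const_zero, nr_zero' hr]
  have h1 : (∑ i, sg (e i) • (Pi.single i (1 : ℝ) : Fin M → ℝ)) = fun j => sg (e j) := by
    funext j
    simp [Finset.sum_apply, Pi.single_apply]
  have h2 : ‖(fun j => sg (e j) : Fin M → ℝ)‖ = 1 := by
    apply le_antisymm
    · rw [pi_norm_le_iff_of_nonneg (by norm_num)]
      intro j
      rw [Real.norm_eq_abs, sg_abs]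
    · have := norm_le_pi_norm (fun j => sg (e j) : Fin M → ℝ) ⟨0, hM⟩
      rwa [Real.norm_eq_abs, sg_abs] at this
  rw [h1, h2]
  simp

lemma isCotypeConst_NX {r q : ℝ} (hr : 2 < r) (hq : r ≤ q) (m M : ℕ)
    (hM : (3 : ℝ) ≤ ((M : ℝ) ^ (1 / q)) ^ 2) :
    IsCotypeConst (NX r m M) q ((M : ℝ) ^ (1 / q)) := by
  refine ⟨cotype_NX hr hq m M hM, ?_⟩
  have hM1 : 1 ≤ M := by
    rcases Nat.eq_zero_or_pos M with h | h
    · exfalso
      rw [h] at hM
      have hq0 : q ≠ 0 := by linarith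
      rw [Nat.cast_zero, Real.zero_rpow (one_div_ne_zero hq0)] at hM
      norm_num at hM
    · exact h
  intro C hC
  have h := hC M (tst m M)
  rw [rad_eq] at h
  simp only [NX_tst (by linarith : 0 < r), NX_tst_sum (by linarith : 0 < r) m M hM1, one_pow,
    Real.one_rpow, Fintype.expect_const, Real.sqrt_one,
    mul_one, Finset.sum_const, Finset.card_univ, Fintype.card_fin, nsmul_eq_mul] at h
  exact h

/-- the inclusion of `ℓ₁ᵐ(ℓ_rᵐ)` -/
def incl (m M : ℕ) : (Fin m × Fin m → ℝ) →ₗ[ℝ] (Fin (m * m + M) → ℝ) where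
  toFun y := fun l => Sum.elim y (fun _ => 0) (eqv m M l)
  map_add' y z := by
    funext l
    rcases h : eqv m M l with a | j <;> simp [h]
  map_smul' c y := by
    funext l
    rcases h : eqv m M l with a | j <;> simp [h]

lemma fst_incl (m M : ℕ) (y : Fin m × Fin m → ℝ) : fst (incl m M y) = y := by
  funext a
  simp [fst, incl]

lemma snd_incl (m M : ℕ) (y : Fin m × Fin m → ℝ) : snd (incl m M y) = 0 := by
  funext a
  simp [snd, incl]

lemma NX_incl (r : ℝ) (m M : ℕ) (y : Fin m × Fin m → ℝ) : NX r m M (incl m M y) = nr r y := by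
  unfold NX
  rw [fst_incl, snd_incl]
  simp [Real.sqrt_sq (nr_nonneg r y)]

def sndL (m M : ℕ) : (Fin (m * m + M) → ℝ) →ₗ[ℝ] (Fin M → ℝ) where
  toFun := snd
  map_add' _ _ := rfl
  map_smul' _ _ := rfl

def fstL (m M : ℕ) : (Fin (m * m + M) → ℝ) →ₗ[ℝ] (Fin m × Fin m → ℝ) where
  toFun := fst
  map_add' _ _ := rfl
  map_smul' _ _ := rfl

lemma incl_fst {m M : ℕ} {x : Fin (m * m + M) → ℝ} (h : snd x = 0) : incl m M (fst x) = x := by
  funext l
  simp only [incl, LinearMap.coe_mk, AddHom.coe_mk]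
  rcases hl : eqv m M l with a | j
  · have : l = (eqv m M).symm (.inl a) := by rw [← hl, Equiv.symm_apply_apply]
    rw [this]
    rfl
  · have : l = (eqv m M).symm (.inr j) := by rw [← hl, Equiv.symm_apply_apply]
    rw [this]
    exact (congrFun h j).symm

lemma finrank_le (m M : ℕ) (E : Submodule ℝ (Fin (m * m + M) → ℝ)) :
    Module.finrank ℝ E ≤ Module.finrank ℝ (E.comap (incl m M)) + M := by
  set g : E →ₗ[ℝ] (Fin M → ℝ) := (sndL m M).comp E.subtype with hg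
  have h1 := LinearMap.finrank_range_add_finrank_ker g
  have h2 : Module.finrank ℝ (LinearMap.range g) ≤ M := by
    refine (Submodule.finrank_le _).trans ?_
    simp
  have hmem : ∀ x : LinearMap.ker g, fst ((x : E) : Fin (m * m + M) → ℝ) ∈ E.comap (incl m M) := by
    intro x
    rw [Submodule.mem_comap]
    have h0 : snd ((x : E) : Fin (m * m + M) → ℝ) = 0 := LinearMap.mem_ker.mp x.2
    rw [incl_fst h0]
    exact (x : E).2
  set f : LinearMap.ker g →ₗ[ℝ] E.comap (incl m M) :=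
    LinearMap.codRestrict (E.comap (incl m M))
      ((fstL m M).comp (E.subtype.comp (LinearMap.ker g).subtype)) hmem with hf
  have hinj : Function.Injective f := by
    intro x y hxy
    have h3 : fst ((x : E) : Fin (m * m + M) → ℝ) = fst ((y : E) : Fin (m * m + M) → ℝ) :=
      congrArg Subtype.val hxy
    have hx : snd ((x : E) : Fin (m * m + M) → ℝ) = 0 := LinearMap.mem_ker.mp x.2
    have hy : snd ((y : E) : Fin (m * m + M) → ℝ) = 0 := LinearMap.mem_ker.mp y.2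
    apply Subtype.ext
    apply Subtype.ext
    rw [← incl_fst hx, ← incl_fst hy, h3]
  have h4 := LinearMap.finrank_le_finrank_of_injective hinj
  omega

lemma T2_of_TypeTwo {r : ℝ} (m M : ℕ) (E : Submodule ℝ (Fin (m * m + M) → ℝ)) (T : ℝ)
    (h : TypeTwo (NX r m M) E T) :
    T2r r ((E.comap (incl m M) : Submodule ℝ (Fin m × Fin m → ℝ)) : Set (Fin m × Fin m → ℝ))
      ((max T 0) ^ 2) := by
  intro K y hy
  have h1 := h K (fun k => incl m M (y k)) (fun k => hy k)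
  rw [rad_eq] at h1
  have h2 : ∀ e : Fin K → ℤˣ, NX r m M (∑ i, sg (e i) • incl m M (y i)) =
      nr r (∑ i, sg (e i) • y i) := by
    intro e
    rw [← NX_incl r m M, map_sum]
    simp_rw [map_smul]
  simp_rw [h2, NX_incl] at h1
  set Q := 𝔼 e : Fin K → ℤˣ, nr r (∑ i, sg (e i) • y i) ^ 2 with hQ
  have hQ0 : 0 ≤ Q := Finset.expect_nonneg (fun e _ => sq_nonneg _)
  have hS0 : 0 ≤ ∑ i, nr r (y i) ^ 2 := Finset.sum_nonneg (fun _ _ => sq_nonneg _)
  have h3 : Real.sqrt Q ≤ max T 0 * Real.sqrt (∑ i, nr r (y i) ^ 2) :=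
    h1.trans (mul_le_mul_of_nonneg_right (le_max_left _ _) (Real.sqrt_nonneg _))
  have h4 : Real.sqrt Q ^ 2 ≤ (max T 0 * Real.sqrt (∑ i, nr r (y i) ^ 2)) ^ 2 :=
    pow_le_pow_left₀ (Real.sqrt_nonneg _) h3 2
  rw [Real.sq_sqrt hQ0, mul_pow, Real.sq_sqrt hS0] at h4
  exact h4

/-- for every bound there is a large `t` -/
lemma exists_t (T δ : ℝ) (hδ : 0 < δ) (M : ℕ) :
    ∃ t : ℕ, 1 ≤ t ∧ 5 * T / Real.sqrt t + M / t < δ := by
  have h1 : Filter.Tendsto (fun t : ℕ => 5 * T / Real.sqrt t + M / t)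
      Filter.atTop (nhds (0 + 0)) := by
    apply Filter.Tendsto.add
    · exact Filter.Tendsto.div_atTop tendsto_const_nhds
        (Real.tendsto_sqrt_atTop.comp tendsto_natCast_atTop_atTop)
    · exact tendsto_const_div_atTop_nhds_zero_nat (M : ℝ)
  simp only [add_zero] at h1
  have h2 := h1.eventually (gt_mem_nhds hδ)
  obtain ⟨t, ht, ht2⟩ := (h2.and (Filter.eventually_ge_atTop 1)).exists
  exact ⟨t, ht2, ht⟩

theorem exact_form (q : ℝ) (hq : 2 < q) (M : ℕ) (hM : (3 : ℝ) ^ (q / 2) ≤ M) (δ : ℝ) (hδ : 0 < δ)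
    (T : ℝ) : ∃ (n : ℕ) (N : (Fin n → ℝ) → ℝ), IsNorm N ∧
      IsCotypeConst N q ((M : ℝ) ^ (1 / q)) ∧
      ∀ E : Submodule ℝ (Fin n → ℝ), δ * n ≤ Module.finrank ℝ E → ¬ TypeTwo N E T := by
  have hq0 : 0 < q := by linarith
  obtain ⟨hr, hr4, hrq, ha1, ha⟩ := exists_min hq
  set r : ℝ := min q 4 with hrdef
  set a : ℕ := ⌈q / (q - 2)⌉₊ with hadef
  obtain ⟨t, ht, hB⟩ := exists_t (max T 0) δ hδ M
  have hM3 : (3 : ℝ) ≤ ((M : ℝ) ^ (1 / q)) ^ 2 := by
    have h1 : ((3 : ℝ) ^ (q / 2)) ^ (1 / q) ≤ (M : ℝ) ^ (1 / q) :=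
      Real.rpow_le_rpow (by positivity) hM (by positivity)
    have h2 : ((3 : ℝ) ^ (q / 2)) ^ (1 / q) = Real.sqrt 3 := by
      rw [← Real.rpow_mul (by norm_num), Real.sqrt_eq_rpow]
      congr 1
      field_simp
    rw [h2] at h1
    have h3 := pow_le_pow_left₀ (Real.sqrt_nonneg _) h1 2
    rwa [Real.sq_sqrt (by norm_num)] at h3
  set m : ℕ := (t ^ a) ^ (2 * t) with hm
  refine ⟨m * m + M, NX r m M, isNorm_NX hr m M, isCotypeConst_NX hr hrq m M hM3, ?_⟩
  intro E hE hT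
  have h := final_estimate hr hr4 a ha t ht m le_rfl (E.comap (incl m M)) (max T 0)
    (le_max_right _ _) (T2_of_TypeTwo m M E T hT)
  have h1 : (Module.finrank ℝ E : ℝ) ≤ Module.finrank ℝ (E.comap (incl m M)) + M := by
    exact_mod_cast finrank_le m M E
  have htpos : (0 : ℝ) < t := by exact_mod_cast ht
  have hmt : t ≤ m * m := by
    rw [hm, ← pow_add, ← pow_mul]
    apply Nat.le_self_pow
    have : 0 < a * (2 * t + 2 * t) := Nat.mul_pos ha1 (by omega)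
    omega
  have hmtR : (t : ℝ) ≤ (m : ℝ) ^ 2 := by rw [sq]; exact_mod_cast hmt
  have hm2 : (0 : ℝ) < (m : ℝ) ^ 2 := lt_of_lt_of_le htpos hmtR
  have h4 : (M : ℝ) ≤ (m : ℝ) ^ 2 * (M / t) := by
    have : (M : ℝ) = t * (M / t) := by field_simp
    calc (M : ℝ) = t * (M / t) := this
      _ ≤ (m : ℝ) ^ 2 * (M / t) := mul_le_mul_of_nonneg_right hmtR (by positivity)
  have h5 : δ * (m : ℝ) ^ 2 ≤ (m : ℝ) ^ 2 * (5 * max T 0 / Real.sqrt t + M / t) := by
    have h6 : δ * (m : ℝ) ^ 2 ≤ δ * ((m * m + M : ℕ) : ℝ) := by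
      apply mul_le_mul_of_nonneg_left _ hδ.le
      push_cast
      nlinarith [Nat.cast_nonneg (α := ℝ) M]
    have h7 : (m : ℝ) ^ 2 * (5 * max T 0 / Real.sqrt t + M / t) =
        5 * max T 0 * (m : ℝ) ^ 2 / Real.sqrt t + (m : ℝ) ^ 2 * (M / t) := by ring
    rw [h7]
    linarith
  nlinarith

/-- **Proportional subspaces of bounded type 2 do not exist in spaces of cotype `q > 2`.**

(1) Q1 is disproved: there is no function `f` such that every normed space `X = (ℝⁿ, N)` contains,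
for every `q ≥ 2`, a subspace `E` with `dim E ≥ n/2` and `T₂(E) ≤ f(q, C_q(X))`.

(2) The same for every single exponent `q > 2` and every proportion `δ > 0`: for every integer
`M ≥ 3^{q/2}` and every `T` there is a normed space `X = (ℝⁿ, N)` with `C_q(X) = M^{1/q}` such that
no subspace `E` with `dim E ≥ δ n` has `T₂(E) ≤ T`.

(3) A bound with an explicit rate, in every dimension: for every `q > 2` and every `n ≥ 16` there is
a norm `N` on `ℝⁿ` with `C_p(ℝⁿ, N) ≤ √3` for all `p ≥ q`, such that every subspace `E` with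
`T₂(E) ≤ T` satisfies `dim E ≤ 60 √⌈q/(q-2)⌉ T n √(log log n / log n)`. So the subspaces of
dimension at least `δ n` have type 2 constants at least `c_q δ √(log n / log log n)`. -/
theorem result :
    (¬ ∃ f : ℝ → ℝ → ℝ, ∀ (n : ℕ) (N : (Fin n → ℝ) → ℝ), IsNorm N →
      ∀ q c : ℝ, 2 ≤ q → IsCotypeConst N q c →
        ∃ E : Submodule ℝ (Fin n → ℝ), (n : ℝ) / 2 ≤ Module.finrank ℝ E ∧ TypeTwo N E (f q c)) ∧
    (∀ q : ℝ, 2 < q → ∀ M : ℕ, (3 : ℝ) ^ (q / 2) ≤ M → ∀ δ : ℝ, 0 < δ → ∀ T : ℝ,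
      ∃ (n : ℕ) (N : (Fin n → ℝ) → ℝ), IsNorm N ∧ IsCotypeConst N q ((M : ℝ) ^ (1 / q)) ∧
        ∀ E : Submodule ℝ (Fin n → ℝ), δ * n ≤ Module.finrank ℝ E → ¬ TypeTwo N E T) ∧
    (∀ q : ℝ, 2 < q → ∀ n : ℕ, 16 ≤ n → ∃ N : (Fin n → ℝ) → ℝ, IsNorm N ∧
      (∀ p : ℝ, q ≤ p → Cotype N p (Real.sqrt 3)) ∧
      ∀ (E : Submodule ℝ (Fin n → ℝ)) (T : ℝ), 0 ≤ T → TypeTwo N E T →
        (Module.finrank ℝ E : ℝ) ≤ 60 * Real.sqrt ⌈q / (q - 2)⌉₊ * T * n *
          Real.sqrt (Real.log (Real.log n) / Real.log n)) := by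
  refine ⟨?_, exact_form, all_dimensions⟩
  rintro ⟨f, hf⟩
  obtain ⟨n, N, hN, hc, hE⟩ := exact_form 4 (by norm_num) 9
    (by
      have : (4 : ℝ) / 2 = (2 : ℕ) := by norm_num
      rw [this, Real.rpow_natCast]
      norm_num) (1 / 2) (by norm_num)
    (f 4 (((9 : ℕ) : ℝ) ^ (1 / (4 : ℝ))))
  obtain ⟨E, hdim, hT⟩ := hf n N hN 4 _ (by norm_num) hc
  exact hE E (by linarith) hT

end Pool.Agent.Results.MP_138624_an.AllProportions
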